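import Mathlib
import Pool.Agent.Lib.MP_d81877_alF.Gen
import Pool.Agent.Lib.MP_d81877_alA.Main

/-!
MP_d81877_al, assembly, part 1: the module generated by the highest weight vector is the space
of primitive tensors of the given shape.
-/

namespace MP_d81877_alY

open Finset Matrix Pool.Agent.MP_d81877_alF MP_d81877_alF Pool.Agent.D818A

variable {N s : ℕ} {F K : Type} [Field F] [Fintype F] [Field K] [CharP K 2] [Algebra F K]

omit [Fintype F] in
theorem DD_eq_span (c : Fin s → ℕ) :
    DD N F K c = Submodule.span K (Set.range fun g : GL (Fin N) F =>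
      orb ((g : Matrix (Fin N) (Fin N) F).map (algebraMap F K)) (fun j => corner N (c j))) := by
  have h : ∀ g : GL (Fin N) F, rhoG N s F K g (vtop N K c)
      = dtw K g • orb ((g : Matrix (Fin N) (Fin N) F).map (algebraMap F K))
        (fun j => corner N (c j)) := by
    intro g
    rw [rhoG_apply]
    congr 1
    funext S
    rw [rho_vtop]
    rfl
  apply le_antisymm
  · refine Submodule.span_le.2 ?_
    rintro _ ⟨g, rfl⟩
    show rhoG N s F K g (vtop N K c) ∈ _
    rw [h]
    exact Submodule.smul_mem _ _ (Submodule.subset_span ⟨g, rfl⟩)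
  · refine Submodule.span_le.2 ?_
    rintro _ ⟨g, rfl⟩
    show orb _ _ ∈ DD N F K c
    have h1 : orb ((g : Matrix (Fin N) (Fin N) F).map (algebraMap F K))
        (fun j => corner N (c j)) = (dtw K g)⁻¹ • rhoG N s F K g (vtop N K c) := by
      rw [h, smul_smul, inv_mul_cancel₀ (dtw_ne_zero g), one_smul]
    rw [h1]
    exact Submodule.smul_mem _ _ (Submodule.subset_span ⟨g, rfl⟩)

theorem mem_DD_iff (c : Fin s → ℕ) (hcN : ∀ j, c j ≤ N)
    (hc : ∀ j j' : Fin s, (j : ℕ) + 1 = j' → c j' ≤ c j)
    (hF : (s + 1) * N < Fintype.card F) (v : TT N s K) :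
    v ∈ DD N F K c ↔ v ∈ shape N K c ∧ Primitive v := by
  have hC : ∀ j, ∀ i ∈ corner N (c j), ∀ i' : Fin N, i' < i → i' ∈ corner N (c j) := by
    intro j i hi i' hi'
    rw [mem_corner] at hi ⊢
    exact lt_trans hi' hi
  have hC' : ∀ j j' : Fin s, (j : ℕ) + 1 = j' → corner N (c j') ⊆ corner N (c j) := by
    intro j j' h i hi
    rw [mem_corner] at hi ⊢
    exact lt_of_lt_of_le hi (hc j j' h)
  constructor
  · intro hv
    have hs := DD_le_shape c hcN hv
    refine ⟨hs, ?_⟩
    rw [DD_eq_span] at hv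
    refine (mem_span_iff_primitive (C := fun j => corner N (c j)) hC hC' hF ?_).1 hv
    intro S hS j
    rw [card_corner (hcN j)]
    by_contra hne
    exact hS (hs S ⟨j, hne⟩)
  · rintro ⟨hs, hv⟩
    rw [DD_eq_span]
    refine (mem_span_iff_primitive (C := fun j => corner N (c j)) hC hC' hF ?_).2 hv
    intro S hS j
    rw [card_corner (hcN j)]
    by_contra hne
    exact hS (hs S ⟨j, hne⟩)

end MP_d81877_alY
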