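import Mathlib
import Pool.Agent.Lib.MP_d81877_alY.DDPrim

/-!
MP_d81877_al, assembly, part 2: a triangular pairing between the functionals and the elements
of the radical suffices.
-/

namespace MP_d81877_alY

open Finset Matrix Pool.Agent.MP_d81877_alF MP_d81877_alF Pool.Agent.D818A

variable {N : ℕ} {F K : Type} [Field F] [Fintype F] [CharP F 2] [Field K] [IsAlgClosed K]
  [CharP K 2] [Algebra F K]

/-- the frame with an invertible pairing matrix -/
theorem big_of_det (c : Fin 4 → ℕ) (hc1 : ∀ j, 1 ≤ c j) (hcN : ∀ j, c j ≤ N) (j0 : Fin 4)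
    (hj0 : c j0 < N) (hq : 4 * (N * N) < Fintype.card F - 1)
    {r : ℕ} (γ R : Fin r → TT N 4 K)
    (hγ : ∀ j (g : GL (Fin N) F), ∀ x ∈ DD N F K c,
      (∀ d ∈ DD N F K c, stdB N 4 K d x = 0) →
      stdB N 4 K (γ j) (rhoG N 4 F K g x) = stdB N 4 K (γ j) x)
    (hR : ∀ i, R i ∈ DD N F K c)
    (hR' : ∀ i, ∀ d ∈ DD N F K c, stdB N 4 K d (R i) = 0)
    (A : Matrix (Fin r) (Fin r) K) (hA : ∀ i j, A i j = stdB N 4 K (γ j) (R i))
    (hdet : IsUnit A.det) : Big r := by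
  classical
  refine frame_dual_concrete c hc1 hcN j0 hj0 hq γ (fun i => ∑ l, A⁻¹ i l • R l) hγ ?_ ?_ ?_
  · intro i
    exact Submodule.sum_mem _ (fun l _ => Submodule.smul_mem _ _ (hR l))
  · intro i d hd
    rw [map_sum]
    apply Finset.sum_eq_zero
    intro l _
    rw [map_smul, hR' l d hd, smul_zero]
  · intro i j
    rw [map_sum]
    simp only [map_smul, smul_eq_mul, ← hA]
    have h1 : (A⁻¹ * A) i j = (1 : Matrix (Fin r) (Fin r) K) i j := by
      rw [Matrix.nonsing_inv_mul A hdet]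
    rw [Matrix.mul_apply, Matrix.one_apply] at h1
    exact h1

/-- the frame with a unitriangular pairing matrix -/
theorem big_of_tri (c : Fin 4 → ℕ) (hc1 : ∀ j, 1 ≤ c j) (hcN : ∀ j, c j ≤ N) (j0 : Fin 4)
    (hj0 : c j0 < N) (hq : 4 * (N * N) < Fintype.card F - 1)
    {r : ℕ} (γ R : Fin r → TT N 4 K)
    (hγ : ∀ j (g : GL (Fin N) F), ∀ x ∈ DD N F K c,
      (∀ d ∈ DD N F K c, stdB N 4 K d x = 0) →
      stdB N 4 K (γ j) (rhoG N 4 F K g x) = stdB N 4 K (γ j) x)
    (hR : ∀ i, R i ∈ DD N F K c)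
    (hR' : ∀ i, ∀ d ∈ DD N F K c, stdB N 4 K d (R i) = 0)
    (h0 : ∀ i j, j < i → stdB N 4 K (γ j) (R i) = 0)
    (h1 : ∀ i, stdB N 4 K (γ i) (R i) ≠ 0) : Big r := by
  classical
  refine big_of_det c hc1 hcN j0 hj0 hq γ R hγ hR hR'
    (Matrix.of fun i j => stdB N 4 K (γ j) (R i)) (fun i j => rfl) ?_
  rw [Matrix.det_of_isUpperTriangular, isUnit_iff_ne_zero, Finset.prod_ne_zero_iff]
  · intro i _
    exact h1 i
  · intro i j hij
    exact h0 i j hij

/-- The shape of the four columns. -/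
def shp (N b : ℕ) : Fin 4 → ℕ := ![N - b, N - b - 1, b + 1, b]

/-- **Reduction of the disproof of Guralnick's conjecture to the two parts** (functionals and
elements of the radical), all in terms of primitive tensors of shape
`(N - b, N - b - 1, b + 1, b)`. -/
theorem big_of_parts {b : ℕ} (hb : 1 ≤ b) (hbN : 2 * b + 2 ≤ N)
    (hq : 5 * (N * N) < Fintype.card F)
    {r : ℕ} (γ R : Fin r → TT N 4 K)
    (hγ : ∀ j (g : GL (Fin N) F), ∀ x ∈ shape N K (shp N b), Primitive x →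
      (∀ d ∈ shape N K (shp N b), Primitive d → ∑ S, d S * x S = 0) →
      ∑ S, γ j S * rhoG N 4 F K g x S = ∑ S, γ j S * x S)
    (hR : ∀ i, R i ∈ shape N K (shp N b))
    (hRp : ∀ i, Primitive (R i))
    (hR' : ∀ i, ∀ d ∈ shape N K (shp N b), Primitive d → ∑ S, d S * R i S = 0)
    (h0 : ∀ i j, j < i → ∑ S, γ j S * R i S = 0)
    (h1 : ∀ i, ∑ S, γ i S * R i S ≠ 0) : Big r := by
  have hcN : ∀ j, shp N b j ≤ N := by
    intro j
    fin_cases j <;> simp [shp] <;> omega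
  have hc1 : ∀ j, 1 ≤ shp N b j := by
    intro j
    fin_cases j <;> simp [shp] <;> omega
  have hc : ∀ j j' : Fin 4, (j : ℕ) + 1 = j' → shp N b j' ≤ shp N b j := by
    intro j j' h
    fin_cases j <;> fin_cases j' <;> simp [shp] at h ⊢ <;> omega
  have hN : 1 ≤ N := by omega
  have hNN : N ≤ N * N := Nat.le_mul_of_pos_left N hN
  have hF : (4 + 1) * N < Fintype.card F := by
    calc (4 + 1) * N = 5 * N := by norm_num
      _ ≤ 5 * (N * N) := Nat.mul_le_mul_left _ hNN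
      _ < Fintype.card F := hq
  have hj0 : shp N b 3 < N := by
    simp [shp]
    omega
  refine big_of_tri (F := F) (shp N b) hc1 hcN 3 hj0 (by
      have : 1 ≤ N * N := le_trans hN hNN
      omega) γ R ?_ ?_ ?_ ?_ ?_
  · intro j g x hx hx'
    rw [mem_DD_iff (shp N b) hcN hc hF] at hx
    refine hγ j g x hx.1 hx.2 ?_
    intro d hd hd'
    exact hx' d ((mem_DD_iff (shp N b) hcN hc hF d).2 ⟨hd, hd'⟩)
  · intro i
    exact (mem_DD_iff (shp N b) hcN hc hF _).2 ⟨hR i, hRp i⟩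
  · intro i d hd
    rw [mem_DD_iff (shp N b) hcN hc hF] at hd
    exact hR' i d hd.1 hd.2
  · exact h0
  · exact h1

end MP_d81877_alY
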