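import Mathlib
import Pool.Agent.Lib.MP_d81877_alY.Tri

/-!
MP_d81877_al, assembly, part 3: choice of the fields.
-/

namespace MP_d81877_alY

open Finset Matrix Pool.Agent.MP_d81877_alF MP_d81877_alF Pool.Agent.D818A

/-- there are finite fields of characteristic two of any size -/
theorem exists_fields (m : ℕ) : ∃ (F : Type) (_ : Field F) (_ : Fintype F) (_ : CharP F 2)
    (K : Type) (_ : Field K) (_ : IsAlgClosed K) (_ : CharP K 2) (_ : Algebra F K),
    m < Fintype.card F := by
  classical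
  have : Fact (Nat.Prime 2) := ⟨Nat.prime_two⟩
  let F := GaloisField 2 (m + 1)
  have : Fintype F := Fintype.ofFinite F
  let K := AlgebraicClosure F
  have : CharP K 2 := charP_of_injective_algebraMap (algebraMap F K).injective 2
  refine ⟨F, inferInstance, inferInstance, inferInstance, K, inferInstance, inferInstance,
    inferInstance, inferInstance, ?_⟩
  have h1 : Fintype.card F = 2 ^ (m + 1) := by
    rw [← Nat.card_eq_fintype_card]
    exact GaloisField.card 2 (m + 1) (Nat.succ_ne_zero m)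
  rw [h1]
  exact lt_trans (Nat.lt_succ_self m) Nat.lt_two_pow_self

/-- The data needed for `r` independent classes. -/
def Parts (N b r : ℕ) (F K : Type) [Field F] [Field K] [CharP K 2] [Algebra F K] : Prop :=
  ∃ γ R : Fin r → TT N 4 K,
    (∀ j (g : GL (Fin N) F), ∀ x ∈ shape N K (shp N b), Primitive x →
      (∀ d ∈ shape N K (shp N b), Primitive d → ∑ S, d S * x S = 0) →
      ∑ S, γ j S * rhoG N 4 F K g x S = ∑ S, γ j S * x S) ∧
    (∀ i, R i ∈ shape N K (shp N b)) ∧
    (∀ i, Primitive (R i)) ∧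
    (∀ i, ∀ d ∈ shape N K (shp N b), Primitive d → ∑ S, d S * R i S = 0) ∧
    (∀ i j, j < i → ∑ S, γ j S * R i S = 0) ∧
    (∀ i, ∑ S, γ i S * R i S ≠ 0)

theorem big_of_Parts {N b r : ℕ} (hb : 1 ≤ b) (hbN : 2 * b + 2 ≤ N)
    (H : ∀ (F K : Type) [Field F] [Fintype F] [CharP F 2] [Field K] [IsAlgClosed K] [CharP K 2]
      [Algebra F K], 5 * (N * N) < Fintype.card F → Parts N b r F K) : Big r := by
  obtain ⟨F, i1, i2, i3, K, i4, i5, i6, i7, h⟩ := exists_fields (5 * (N * N))
  obtain ⟨γ, R, h1, h2, h3, h4, h5, h6⟩ := H F K h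
  exact big_of_parts hb hbN h γ R h1 h2 h3 h4 h5 h6

end MP_d81877_alY
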