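import Mathlib
import Pool.Agent.Lib.MP_d81877_alY.Fields
import Pool.Agent.Lib.MP_d81877_alC.Final
import Pool.Agent.Lib.MP_d81877_alG.Last

/-!
MP_d81877_al, assembly, part 4: the disproof from the elements of the radical.
-/

namespace MP_d81877_alY

open Finset Matrix Pool.Agent.MP_d81877_alF MP_d81877_alF Pool.Agent.D818A D81877C D81877G

theorem Big.mono {r r' : ℕ} (h : r' ≤ r) (hr : Big r) : Big r' := by
  obtain ⟨k, i1, i2, G, i3, i4, V, i5, i6, i7, ρ, h1, h2, h3⟩ := hr
  exact ⟨k, i1, i2, G, i3, i4, V, i5, i6, i7, ρ, h1, h2, le_trans h h3⟩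

/-- The elements which are needed: for `N = NN r`, `b = 2 ^ r - 1` and every `k < r` an element of
the radical whose near values on the non-crossing matchings are given by the block of the last
`2 ^ (k + 1) - 1` sites. -/
def Elements (K : Type) [Field K] (r : ℕ) : Prop :=
  ∀ k < r, ∃ R : Tup (NN r) → K, InR univ (2 ^ r - 1) R ∧
    ∀ l, NC univ l → l.length ≤ 2 ^ r - 1 →
      nf univ (2 ^ r - 1 - l.length) R l = val K (Sl (NN r) (2 ^ (k + 1) - 1)) l

/-- the value of an element at an invariant functional -/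
theorem value_of_elements {K : Type} [Field K] [CharP K 2] {r : ℕ} {k l : ℕ} (hk : k < r)
    {R : Tup (NN r) → K} (hR : InR univ (2 ^ r - 1) R)
    (hval : ∀ l, NC univ l → l.length ≤ 2 ^ r - 1 →
      nf univ (2 ^ r - 1 - l.length) R l = val K (Sl (NN r) (2 ^ (k + 1) - 1)) l)
    {m : ℕ} (hm : m + (2 ^ (l + 1) - 1) = 2 ^ r - 1) :
    IsSymbol univ (2 ^ (l + 1) - 1) (nf univ m R) (D81877G.ql K (NN r) k) := by
  have hcard : (univ : Finset (Fin (NN r))).card = NN r := by
    rw [card_univ, Fintype.card_fin]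
  have hrel : Rel (univ : Finset (Fin (NN r))) (2 ^ (l + 1) - 1) (nf univ m R) := by
    refine nf_rel hypN hypX ?_ ?_ (by rw [hm]; exact hR)
    · rw [hcard]
      have := NN_mod r
      exact Nat.even_iff.2 (by omega)
    · rw [hm, hcard]
      have := NN_large r
      omega
  refine isSymbol_of_nc hrel ?_
  intro t ht htl
  have h1 := hval t ht (by rw [htl]; omega)
  have h2 : 2 ^ r - 1 - t.length = m := by rw [htl]; omega
  rw [h2] at h1
  have hmod : NN r % 2 = 0 := by
    have := NN_mod r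
    omega
  rw [h1, tsum_ql K (NN_ge r k hk) hmod ht]

/-- the positive case -/
theorem big_of_elements_pos (H : ∀ (K : Type) [Field K] [IsAlgClosed K] [CharP K 2] (r : ℕ),
    1 ≤ r → Elements K r) (r : ℕ) (hr : 1 ≤ r) : Big r := by
  obtain ⟨F, i1, i2, i3, K, i4, i5, i6, i7, hF⟩ := exists_fields (5 * (NN r * NN r))
  choose R hR hval using H K r hr
  have hb : 1 ≤ 2 ^ r - 1 := by
    have : 2 ^ 1 ≤ 2 ^ r := Nat.pow_le_pow_right (by norm_num) hr
    omega
  have hlarge := NN_large r
  have hN1 : 1 ≤ NN r := by omega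
  have hNN : NN r ≤ NN r * NN r := Nat.le_mul_of_pos_left _ hN1
  have hF' : (4 + 1) * NN r < Fintype.card F := by
    calc (4 + 1) * NN r = 5 * NN r := by norm_num
      _ ≤ 5 * (NN r * NN r) := Nat.mul_le_mul_left _ hNN
      _ < Fintype.card F := hF
  have hpow : ∀ j : Fin r, 2 ^ (j.val + 1) ≤ 2 ^ r := fun j =>
    Nat.pow_le_pow_right (by norm_num) j.2
  have hm : ∀ j : Fin r, (2 ^ r - 2 ^ (j.val + 1)) + (2 ^ (j.val + 1) - 1) = 2 ^ r - 1 := by
    intro j
    have := hpow j
    have h2 : 0 < 2 ^ (j.val + 1) := by positivity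
    omega
  have hγ := fun j : Fin r => exists_gamma (N := NN r) (K := K) (F := F) (k := j.val + 1)
    (M := 2 ^ (r + 2 - j.val) - 1) (m := 2 ^ r - 2 ^ (j.val + 1)) (by omega)
    (by
      have := NN_spec r j.val j.2
      rwa [card_univ, Fintype.card_fin] at this)
    (by rw [hm j]; omega) hF'
  choose γ hγ1 hγ2 using hγ
  have hInR := fun i : Fin r => (inR_iff (F := F) (K := K) (N := NN r) (B := 2 ^ r - 1)
    (by omega) hF').1 (hR i.val i.2)
  have hsym : ∀ i j : Fin r, j ≤ i →
      stdB (NN r) 4 K (γ j) (R i.val i.2) = if j = i then 1 else 0 := by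
    intro i j hji
    have h1 := value_of_elements (K := K) (r := r) i.2 (l := j.val) (hR i.val i.2)
      (hval i.val i.2) (hm j)
    rw [hγ2 j _ _ h1, sum_ql K (NN_ge r i.val i.2) (NN_mod r) hji]
    by_cases h : j = i
    · subst h; simp
    · rw [if_neg h, if_neg (fun h' => h (Fin.ext h'))]
  refine big_of_tri (F := F) (K := K) (cB (NN r) (2 ^ r - 1)) ?_ (cB_le (by omega)) 3 ?_ ?_ γ
    (fun i => R i.val i.2) ?_ (fun i => (hInR i).1) (fun i => (hInR i).2) ?_ ?_
  · intro j
    fin_cases j <;> simp [cB] <;> omega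
  · simp [cB]; omega
  · have : 1 ≤ NN r * NN r := le_trans hN1 hNN
    omega
  · intro j g x hx hx'
    have := hγ1 j g
    rw [hm j] at this
    exact this x hx hx'
  · intro i j hji
    rw [hsym i j hji.le, if_neg (ne_of_lt hji)]
  · intro i
    rw [hsym i i le_rfl, if_pos rfl]
    exact one_ne_zero

/-- **The disproof of Guralnick's conjecture from the elements of the radical.** -/
theorem big_of_elements (H : ∀ (K : Type) [Field K] [IsAlgClosed K] [CharP K 2] (r : ℕ), 1 ≤ r →
    Elements K r) (r : ℕ) : Big r := by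
  rcases Nat.eq_zero_or_pos r with h0 | hr
  · subst h0
    exact Big.mono (Nat.zero_le 1) (big_of_elements_pos H 1 le_rfl)
  · exact big_of_elements_pos H r hr

end MP_d81877_alY
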